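import Pool.Agent.Helper20.EQ.St2

/-! Project EQ (helper20), module CEF: the cell formula. -/

set_option autoImplicit false

open MeasureTheory Set Filter Topology
open scoped ENNReal RealInnerProductSpace

namespace Pool.Agent.Helper72.EQ

open Pool.Agent.Helper68.LM (Pl BB Bd Av HL ft fm DQ)
open Pool.Agent.Helper20.RG Pool.Agent.Helper20.EQ

theorem cef_c0 : Continuous (fun y : Pl => y 0) := by fun_prop

theorem cef_c1 : Continuous (fun y : Pl => y 1) := by fun_prop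

theorem cef_pr (s : ℝ) (y z : Pl) : pr s (y - z) = (y 1 - z 1) - s * (y 0 - z 0) := rfl

theorem cef_mem (s la mu : ℝ) (k : ℤ) (A : ℕ) (z y : Pl) : y ∈ Cel s la mu k A z ↔
    |y 0 - z 0| ≤ la * (2 : ℝ) ^ k / 2 ∧
      |(y 1 - z 1) - s * (y 0 - z 0)| ≤ mu * (2 : ℝ) ^ (k - (A : ℤ)) / 2 := Iff.rfl

theorem cef_meas (s la mu : ℝ) (k : ℤ) (A : ℕ) (z : Pl) :
    MeasurableSet (Cel s la mu k A z) := by
  have h1 : IsClosed {y : Pl | |y 0 - z 0| ≤ la * (2 : ℝ) ^ k / 2} :=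
    isClosed_le ((cef_c0.sub continuous_const).abs) continuous_const
  have h2 : IsClosed {y : Pl | |(y 1 - z 1) - s * (y 0 - z 0)| ≤
      mu * (2 : ℝ) ^ (k - (A : ℤ)) / 2} :=
    isClosed_le (((cef_c1.sub continuous_const).sub
      (continuous_const.mul (cef_c0.sub continuous_const))).abs) continuous_const
  have h3 : Cel s la mu k A z = {y : Pl | |y 0 - z 0| ≤ la * (2 : ℝ) ^ k / 2} ∩
      {y : Pl | |(y 1 - z 1) - s * (y 0 - z 0)| ≤ mu * (2 : ℝ) ^ (k - (A : ℤ)) / 2} := by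
    ext y
    exact cef_mem s la mu k A z y
  rw [h3]
  exact (h1.inter h2).measurableSet

theorem cef_vol (hPT : StPT) (s la mu : ℝ) (k : ℤ) (A : ℕ) (z : Pl) (hla : 0 < la)
    (hmu : 0 < mu) : volume (Cel s la mu k A z) =
      ENNReal.ofReal (la * mu * (2 : ℝ) ^ k * (2 : ℝ) ^ (k - (A : ℤ))) := by
  obtain ⟨hp, hpx, hpn, hpi, hpc, hpl, hpI, hpS⟩ := hPT
  have hb : 0 < mu * (2 : ℝ) ^ (k - (A : ℤ)) := by positivity
  have ha : 0 < la * (2 : ℝ) ^ k := by positivity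
  rw [← lintegral_indicator_one (cef_meas s la mu k A z),
    hpl _ (measurable_one.indicator (cef_meas s la mu k A z))]
  have h1 : ∀ y0 y1 : ℝ, (Cel s la mu k A z).indicator (1 : Pl → ℝ≥0∞) (pt y0 y1) =
      (Icc (z 0 - la * (2 : ℝ) ^ k / 2) (z 0 + la * (2 : ℝ) ^ k / 2)).indicator (fun _ =>
        (Icc (z 1 + s * (y0 - z 0) - mu * (2 : ℝ) ^ (k - (A : ℤ)) / 2)
          (z 1 + s * (y0 - z 0) + mu * (2 : ℝ) ^ (k - (A : ℤ)) / 2)).indicator
            (1 : ℝ → ℝ≥0∞) y1) y0 := by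
    intro y0 y1
    by_cases h0 : y0 ∈ Icc (z 0 - la * (2 : ℝ) ^ k / 2) (z 0 + la * (2 : ℝ) ^ k / 2)
    · rw [indicator_of_mem h0]
      by_cases h2 : y1 ∈ Icc (z 1 + s * (y0 - z 0) - mu * (2 : ℝ) ^ (k - (A : ℤ)) / 2)
          (z 1 + s * (y0 - z 0) + mu * (2 : ℝ) ^ (k - (A : ℤ)) / 2)
      · rw [indicator_of_mem h2, indicator_of_mem]
        · rfl
        rw [cef_mem, (hp y0 y1).1, (hp y0 y1).2, abs_le, abs_le]
        rw [mem_Icc] at h0 h2
        exact ⟨⟨by linarith [h0.1], by linarith [h0.2]⟩, ⟨by linarith [h2.1], by linarith [h2.2]⟩⟩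
      · rw [indicator_of_notMem h2, indicator_of_notMem]
        rw [cef_mem, (hp y0 y1).1, (hp y0 y1).2, abs_le, abs_le]
        rintro ⟨_, h3, h4⟩
        exact h2 (mem_Icc.2 ⟨by linarith, by linarith⟩)
    · rw [indicator_of_notMem h0, indicator_of_notMem]
      rw [cef_mem, (hp y0 y1).1, abs_le]
      rintro ⟨⟨h3, h4⟩, _⟩
      exact h0 (mem_Icc.2 ⟨by linarith, by linarith⟩)
  have h2 : ∀ y0 : ℝ, ∫⁻ y1 : ℝ, (Cel s la mu k A z).indicator (1 : Pl → ℝ≥0∞) (pt y0 y1) =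
      (Icc (z 0 - la * (2 : ℝ) ^ k / 2) (z 0 + la * (2 : ℝ) ^ k / 2)).indicator (fun _ =>
        ENNReal.ofReal (mu * (2 : ℝ) ^ (k - (A : ℤ)))) y0 := by
    intro y0
    rw [lintegral_congr (h1 y0)]
    by_cases h0 : y0 ∈ Icc (z 0 - la * (2 : ℝ) ^ k / 2) (z 0 + la * (2 : ℝ) ^ k / 2)
    · simp only [indicator_of_mem h0]
      rw [lintegral_indicator_one measurableSet_Icc, Real.volume_Icc]
      congr 1
      ring
    · simp only [indicator_of_notMem h0]
      rw [lintegral_zero]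
  rw [lintegral_congr h2, lintegral_indicator_const measurableSet_Icc, Real.volume_Icc,
    ← ENNReal.ofReal_mul hb.le]
  congr 1
  ring

theorem cef_cv (f : ℝ → ℝ) (c b : ℝ) (hb : 0 < b) : ∫ v, f (c - b * v) = b⁻¹ * ∫ y, f y := by
  have h1 := Measure.integral_comp_mul_left (fun y => f (c - y)) b
  rw [h1, abs_of_pos (inv_pos.2 hb), smul_eq_mul, integral_sub_left_eq_self (μ := volume) f c]

theorem cef_int (hPT : StPT) (s la mu : ℝ) (k : ℤ) (A : ℕ) (z : Pl) (hla : 0 < la)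
    (hmu : 0 < mu) (g : Pl → ℝ) (hg : BB g) : CA s la mu k A g z =
      1 / (la * mu * (2 : ℝ) ^ k * (2 : ℝ) ^ (k - (A : ℤ))) *
        ∫ y in Cel s la mu k A z, g y := by
  have hvol := cef_vol hPT s la mu k A z hla hmu
  obtain ⟨hp, hpx, hpn, hpi, hpc, hpl, hpI, hpS⟩ := hPT
  obtain ⟨hgm, K, hK, -⟩ := hg
  have hb : 0 < (2 : ℝ) ^ (k - (A : ℤ)) * mu := by positivity
  have ha : 0 < (2 : ℝ) ^ k * la := by positivity
  have hE : E s ≠ 0 := by
    intro h
    have := (hp 1 s).1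
    unfold E at h
    rw [h] at this
    norm_num at this
  have hv : pt 0 1 ≠ 0 := by
    intro h
    have := (hp 0 1).2
    rw [h] at this
    norm_num at this
  have e1 : ∀ x : Pl, Av (sg s) ((2 : ℝ) ^ k * la) g x =
      ∫ t in Icc (-(1 / 2) : ℝ) (1 / 2), g (x - ((2 : ℝ) ^ k * la) • (t • E s)) := by
    intro x
    unfold Av sg
    rw [(isClosedEmbedding_smul_left hE).measurableEmbedding.integral_map]
  have e2 : CA s la mu k A g z = ∫ v in Icc (-(1 / 2) : ℝ) (1 / 2),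
      ∫ t in Icc (-(1 / 2) : ℝ) (1 / 2),
        g (z - ((2 : ℝ) ^ (k - (A : ℤ)) * mu) • (v • pt 0 1) -
          ((2 : ℝ) ^ k * la) • (t • E s)) := by
    unfold CA
    unfold Av sge
    rw [(isClosedEmbedding_smul_left hv).measurableEmbedding.integral_map]
    refine integral_congr_ae (Eventually.of_forall fun v => ?_)
    exact e1 _
  have hmc : Continuous (fun q : ℝ × ℝ =>
      z - ((2 : ℝ) ^ (k - (A : ℤ)) * mu) • (q.1 • pt 0 1) -
          ((2 : ℝ) ^ k * la) • (q.2 • E s)) := by fun_prop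
  have e3 : CA s la mu k A g z = ∫ t in Icc (-(1 / 2) : ℝ) (1 / 2),
      ∫ v in Icc (-(1 / 2) : ℝ) (1 / 2),
        g (z - ((2 : ℝ) ^ (k - (A : ℤ)) * mu) • (v • pt 0 1) -
          ((2 : ℝ) ^ k * la) • (t • E s)) := by
    rw [e2]
    refine integral_integral_swap ?_
    exact Integrable.of_bound (hgm.comp hmc.measurable).aestronglyMeasurable K
      (Eventually.of_forall fun q => by rw [Real.norm_eq_abs]; exact hK _)
  have hint : Integrable ((Cel s la mu k A z).indicator g) := by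
    rw [integrable_indicator_iff (cef_meas s la mu k A z)]
    exact Measure.integrableOn_of_bounded (by rw [hvol]; exact ENNReal.ofReal_ne_top)
      hgm.aestronglyMeasurable (M := K)
      (Eventually.of_forall fun q => by rw [Real.norm_eq_abs]; exact hK _)
  have hI : ∀ t : ℝ, t ∈ Icc (-(1 / 2) : ℝ) (1 / 2) ↔ |t| ≤ 1 / 2 := by
    intro t
    rw [mem_Icc, abs_le]
  have e4 : ∀ t v : ℝ, (Cel s la mu k A z).indicator g (pt (z 0 - (2 : ℝ) ^ k * la * t)
      (z 1 + s * (z 0 - (2 : ℝ) ^ k * la * t - z 0) - (2 : ℝ) ^ (k - (A : ℤ)) * mu * v)) =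
      (Icc (-(1 / 2) : ℝ) (1 / 2)).indicator (fun t => (Icc (-(1 / 2) : ℝ) (1 / 2)).indicator
        (fun v => g (z - ((2 : ℝ) ^ (k - (A : ℤ)) * mu) • (v • pt 0 1) -
          ((2 : ℝ) ^ k * la) • (t • E s))) v) t := by
    intro t v
    have h5 : (pt (z 0 - (2 : ℝ) ^ k * la * t)
      (z 1 + s * (z 0 - (2 : ℝ) ^ k * la * t - z 0) - (2 : ℝ) ^ (k - (A : ℤ)) * mu * v)) =
        z - ((2 : ℝ) ^ (k - (A : ℤ)) * mu) • (v • pt 0 1) -
          ((2 : ℝ) ^ k * la) • (t • E s) := by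
      rw [← hpx (z - ((2 : ℝ) ^ (k - (A : ℤ)) * mu) • (v • pt 0 1) -
          ((2 : ℝ) ^ k * la) • (t • E s))]
      have h6 : (z - ((2 : ℝ) ^ (k - (A : ℤ)) * mu) • (v • pt 0 1) -
          ((2 : ℝ) ^ k * la) • (t • E s)) 0 = z 0 - (2 : ℝ) ^ k * la * t := by
        have : (z - ((2 : ℝ) ^ (k - (A : ℤ)) * mu) • (v • pt 0 1) -
          ((2 : ℝ) ^ k * la) • (t • E s)) 0 = z 0 - ((2 : ℝ) ^ (k - (A : ℤ)) * mu) *
            (v * (pt 0 1) 0) - ((2 : ℝ) ^ k * la) * (t * (pt 1 s) 0) := rfl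
        rw [this, (hp 0 1).1, (hp 1 s).1]
        ring
      have h7 : (z - ((2 : ℝ) ^ (k - (A : ℤ)) * mu) • (v • pt 0 1) -
          ((2 : ℝ) ^ k * la) • (t • E s)) 1 =
          z 1 + s * (z 0 - (2 : ℝ) ^ k * la * t - z 0) - (2 : ℝ) ^ (k - (A : ℤ)) * mu * v := by
        have : (z - ((2 : ℝ) ^ (k - (A : ℤ)) * mu) • (v • pt 0 1) -
          ((2 : ℝ) ^ k * la) • (t • E s)) 1 = z 1 - ((2 : ℝ) ^ (k - (A : ℤ)) * mu) *
            (v * (pt 0 1) 1) - ((2 : ℝ) ^ k * la) * (t * (pt 1 s) 1) := rfl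
        rw [this, (hp 0 1).2, (hp 1 s).2]
        ring
      rw [h6, h7]
    have h8 : |(z 0 - (2 : ℝ) ^ k * la * t) - z 0| = (2 : ℝ) ^ k * la * |t| := by
      rw [show (z 0 - (2 : ℝ) ^ k * la * t) - z 0 = -((2 : ℝ) ^ k * la * t) by ring, abs_neg,
        abs_mul, abs_of_pos ha]
    have h9 : |(z 1 + s * (z 0 - (2 : ℝ) ^ k * la * t - z 0) -
        (2 : ℝ) ^ (k - (A : ℤ)) * mu * v - z 1) - s * ((z 0 - (2 : ℝ) ^ k * la * t) - z 0)| =
        (2 : ℝ) ^ (k - (A : ℤ)) * mu * |v| := by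
      rw [show (z 1 + s * (z 0 - (2 : ℝ) ^ k * la * t - z 0) -
        (2 : ℝ) ^ (k - (A : ℤ)) * mu * v - z 1) - s * ((z 0 - (2 : ℝ) ^ k * la * t) - z 0) =
        -((2 : ℝ) ^ (k - (A : ℤ)) * mu * v) by ring, abs_neg, abs_mul, abs_of_pos hb]
    have h10 : (pt (z 0 - (2 : ℝ) ^ k * la * t)
      (z 1 + s * (z 0 - (2 : ℝ) ^ k * la * t - z 0) - (2 : ℝ) ^ (k - (A : ℤ)) * mu * v)) ∈
        Cel s la mu k A z ↔ |t| ≤ 1 / 2 ∧ |v| ≤ 1 / 2 := by
      rw [cef_mem, (hp _ _).1, (hp _ _).2, h8, h9]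
      constructor
      · rintro ⟨h11, h12⟩
        refine ⟨?_, ?_⟩
        · by_contra h13
          have h14 := mul_lt_mul_of_pos_left (not_le.1 h13) ha
          linarith
        · by_contra h13
          have h14 := mul_lt_mul_of_pos_left (not_le.1 h13) hb
          linarith
      · rintro ⟨h11, h12⟩
        have h13 := mul_le_mul_of_nonneg_left h11 ha.le
        have h14 := mul_le_mul_of_nonneg_left h12 hb.le
        exact ⟨by linarith, by linarith⟩
    by_cases ht : |t| ≤ 1 / 2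
    · rw [indicator_of_mem ((hI t).2 ht)]
      by_cases hv' : |v| ≤ 1 / 2
      · rw [indicator_of_mem ((hI v).2 hv'), indicator_of_mem (h10.2 ⟨ht, hv'⟩), h5]
      · rw [indicator_of_notMem (fun h => hv' ((hI v).1 h)),
          indicator_of_notMem (fun h => hv' (h10.1 h).2)]
    · rw [indicator_of_notMem (fun h => ht ((hI t).1 h)),
          indicator_of_notMem (fun h => ht (h10.1 h).1)]
  have e5 : ∀ y0 : ℝ, ∫ y1 : ℝ, (Cel s la mu k A z).indicator g (pt y0 y1) =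
      ((2 : ℝ) ^ (k - (A : ℤ)) * mu) * ∫ v : ℝ, (Cel s la mu k A z).indicator g
        (pt y0 (z 1 + s * (y0 - z 0) - (2 : ℝ) ^ (k - (A : ℤ)) * mu * v)) := by
    intro y0
    rw [cef_cv (fun y1 => (Cel s la mu k A z).indicator g (pt y0 y1)) _ _ hb, ← mul_assoc,
      mul_inv_cancel₀ hb.ne', one_mul]
  have e6 : ∫ y in Cel s la mu k A z, g y = ((2 : ℝ) ^ k * la) * (((2 : ℝ) ^ (k - (A : ℤ)) * mu) *
      CA s la mu k A g z) := by
    rw [← integral_indicator (cef_meas s la mu k A z), hpI _ hint]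
    have h1 := cef_cv (fun y0 : ℝ => ∫ y1 : ℝ, (Cel s la mu k A z).indicator g (pt y0 y1)) (z 0)
      ((2 : ℝ) ^ k * la) ha
    have h2 : ∫ y0 : ℝ, ∫ y1 : ℝ, (Cel s la mu k A z).indicator g (pt y0 y1) =
        ((2 : ℝ) ^ k * la) * ∫ t : ℝ, ∫ y1 : ℝ, (Cel s la mu k A z).indicator g
          (pt (z 0 - (2 : ℝ) ^ k * la * t) y1) := by
      rw [h1, ← mul_assoc, mul_inv_cancel₀ ha.ne', one_mul]
    rw [h2]
    congr 1
    rw [integral_congr_ae (Eventually.of_forall fun t => e5 (z 0 - (2 : ℝ) ^ k * la * t)),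
      integral_const_mul]
    congr 1
    rw [e3, ← integral_indicator measurableSet_Icc]
    refine integral_congr_ae (Eventually.of_forall fun t => ?_)
    beta_reduce
    rw [integral_congr_ae (Eventually.of_forall fun v => e4 t v)]
    by_cases ht : t ∈ Icc (-(1 / 2) : ℝ) (1 / 2)
    · simp only [indicator_of_mem ht]
      rw [integral_indicator measurableSet_Icc]
    · simp only [indicator_of_notMem ht]
      rw [integral_zero]
  rw [e6]
  have h3 : la * mu * (2 : ℝ) ^ k * (2 : ℝ) ^ (k - (A : ℤ)) ≠ 0 := by positivity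
  field_simp

theorem hCEF (hPT : StPT) (_hSGE : StSGE) : StCEF := by
  intro s la mu k A z _ hla hmu
  exact ⟨cef_meas s la mu k A z, cef_vol hPT s la mu k A z hla hmu,
    fun g hg => cef_int hPT s la mu k A z hla hmu g hg⟩

end Pool.Agent.Helper72.EQ
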